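import Mathlib
import Pool.Agent.H21.SmoothRepDef

namespace Pool.Agent.Results.MP_b44203_nt.SignChanges

open Pool.Agent.H21.SmoothRep Finset Filter Topology

theorem inj {m l : ℕ} (hm : 2 ≤ m) (hl : 2 ≤ l) (h : m.Coprime l) :
    Function.Injective fun i : ℕ × ℕ => m ^ i.1 * l ^ i.2 := by
  rintro ⟨a, b⟩ ⟨c, e⟩ hh
  dsimp only at hh
  have h1 : m ^ a ∣ m ^ c := (h.pow a e).dvd_of_dvd_mul_right (hh ▸ dvd_mul_right _ _)
  have h2 : m ^ c ∣ m ^ a := (h.pow c b).dvd_of_dvd_mul_right (hh ▸ dvd_mul_right _ _)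
  have h3 : a = c := Nat.pow_right_injective hm (Nat.dvd_antisymm h1 h2)
  subst h3
  rw [Nat.pow_right_injective hl (Nat.eq_of_mul_eq_mul_left (by positivity) hh)]

theorem fin {m l : ℕ} (n : ℕ) :
    {S : Finset ℕ | (S : Set ℕ) ⊆ A m l ∧ ∑ s ∈ S, s = n}.Finite := by
  refine (Finset.range (n + 1)).powerset.finite_toSet.subset fun S hS => ?_
  simp only [coe_powerset, Set.mem_preimage, Set.mem_powerset_iff, coe_subset]
  intro s hs
  have := single_le_sum (f := fun s : ℕ => s) (fun _ _ => Nat.zero_le _) hs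
  rw [hS.2] at this
  exact mem_range.2 (by omega)

theorem gen {m l : ℕ} (hm : 2 ≤ m) (hl : 2 ≤ l) (h : m.Coprime l) (z : ℂ) (hz : ‖z‖ < 1) :
    ∃ F : ℂ, HasSum (fun n => (f m l n : ℂ) * z ^ n) F ∧
      HasProd (fun i : ℕ × ℕ => 1 + z ^ (m ^ i.1 * l ^ i.2)) F := by
  classical
  let g : ℕ → ℂ := fun a => if a ∈ A m l then z ^ a else 0
  have hg : Summable fun a => ‖g a‖ := by
    refine (summable_geometric_of_lt_one (norm_nonneg z) hz).of_nonneg_of_le
      (fun _ => norm_nonneg _) fun a => ?_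
    simp only [g]; split_ifs <;> simp
  have hs := (summable_finsetProd_of_summable_norm hg).hasSum
  refine ⟨∑' S : Finset ℕ, ∏ i ∈ S, g i, ?_, ?_⟩
  · have h1 := (Equiv.sigmaFiberEquiv fun S : Finset ℕ => ∑ s ∈ S, s).hasSum_iff.2 hs
    refine h1.sigma fun n => ?_
    have h2 : HasSum (Set.indicator {S : Finset ℕ | ∑ s ∈ S, s = n} fun S => ∏ i ∈ S, g i)
        (∑ S ∈ (fin (m := m) (l := l) n).toFinset,
          Set.indicator {S : Finset ℕ | ∑ s ∈ S, s = n} (fun S => ∏ i ∈ S, g i) S) := by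
      refine hasSum_sum_of_ne_finset_zero fun S hS => ?_
      rw [Set.indicator_apply_eq_zero]
      intro h1
      simp only [Set.Finite.mem_toFinset, Set.mem_setOf_eq, not_and] at hS h1
      obtain ⟨a, ha, ha'⟩ := Set.not_subset.1 fun h => hS h h1
      exact prod_eq_zero ha (if_neg ha')
    rw [sum_congr rfl (g := fun _ => z ^ n), sum_const, nsmul_eq_mul,
      ← Set.ncard_eq_toFinset_card _ (fin n)] at h2
    · exact hasSum_subtype_iff_indicator.2 h2
    · intro S hS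
      simp only [Set.Finite.mem_toFinset, Set.mem_setOf_eq] at hS
      rw [Set.indicator_of_mem (by exact hS.2), ← hS.2, ← prod_pow_eq_pow_sum]
      exact prod_congr rfl fun a ha => if_pos (hS.1 ha)
  · have h1 := hasProd_one_add_of_hasSum_prod hs
    have h2 := ((inj hm hl h).hasProd_iff (f := fun a => 1 + g a) fun x hx => by
      have : x ∉ A m l := fun ⟨a, b, e⟩ => hx ⟨(a, b), e.symm⟩
      simp [g, this]).2 h1
    convert h2 using 2 with i
    simp only [Function.comp, g]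
    rw [if_pos ⟨i.1, i.2, rfl⟩]

theorem bound (e : ℕ → ℝ) (n0 : ℕ) (h : ∀ n, n0 ≤ n → 0 ≤ e n) (z : ℂ) (r : ℝ) (hz : ‖z‖ = r)
    (hr : r ≤ 1) (a b : ℂ) (ha : HasSum (fun n => (e n : ℂ) * z ^ n) a)
    (hb : HasSum (fun n => (e n : ℂ) * (r : ℂ) ^ n) b) :
    ‖a‖ ≤ ‖b‖ + ∑ n ∈ range n0, 2 * |e n| := by
  have h0 : 0 ≤ r := hz ▸ norm_nonneg z
  have h1 : HasSum (fun n => e n * r ^ n) b.re := by
    have := Complex.hasSum_re hb
    simpa [← Complex.ofReal_pow] using this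
  have h2 : HasSum (fun n => if n ∈ range n0 then 2 * |e n| else 0) (∑ n ∈ range n0, 2 * |e n|) := by
    have := hasSum_sum_of_ne_finset_zero (f := fun n => if n ∈ range n0 then 2 * |e n| else 0)
      (s := range n0) (L := SummationFilter.unconditional ℕ) fun n hn => if_neg hn
    rwa [sum_congr rfl (g := fun n => 2 * |e n|) fun n hn => if_pos hn] at this
  refine (ha.norm_le_of_bounded (h1.add h2) fun n => ?_).trans
    (by gcongr; exact Complex.re_le_norm b)
  have h3 : r ^ n ≤ 1 := pow_le_one₀ h0 hr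
  have h4 : 0 ≤ r ^ n := by positivity
  rw [norm_mul, norm_pow, hz, Complex.norm_real, Real.norm_eq_abs]
  split_ifs with hn
  · nlinarith [neg_abs_le (e n), abs_nonneg (e n)]
  · rw [abs_of_nonneg (h n (by simpa using hn)), add_zero]

def P (l N : ℕ) (x : ℝ) : ℝ := ∏ b ∈ range N, (1 + x ^ l ^ b)

theorem P_pos (l N : ℕ) {x : ℝ} (h : 0 ≤ x) : 0 < P l N x := prod_pos fun _ _ => by positivity

theorem P_succ (l N : ℕ) (x : ℝ) : P l (N + 1) x = P l N (x ^ l) * (1 + x) := by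
  simp only [P, prod_range_succ', pow_zero, pow_one, ← pow_mul, pow_succ']

theorem P_add (l N K : ℕ) {x : ℝ} (h : 0 ≤ x) (h1 : x ≤ 1) :
    P l N x ≤ 2 ^ K * P l N (x ^ l ^ K) := by
  induction K generalizing x with
  | zero => simp
  | succ K ih =>
    have a1 : P l N x ≤ P l (N + 1) x := by
      rw [P, P, prod_range_succ]
      exact le_mul_of_one_le_right (P_pos l N h).le (by simp; positivity)
    have a2 := ih (pow_nonneg h l) (pow_le_one₀ h h1)
    rw [P_succ] at a1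
    rw [← pow_mul, ← pow_succ'] at a2
    have := P_pos l N (pow_nonneg h l)
    rw [pow_succ]; nlinarith

theorem P_le {l : ℕ} (hl : 2 ≤ l) (N : ℕ) {x : ℝ} (h : 0 ≤ x) (h1 : x ≤ 1) :
    (1 - x) * P l N x ≤ 1 := by
  induction N generalizing x with
  | zero => simp [P, h]
  | succ N ih =>
    have a2 := ih (pow_nonneg h l) (pow_le_one₀ h h1)
    have a3 : x ^ l ≤ x ^ 2 := pow_le_pow_of_le_one h h1 hl
    have := P_pos l N (pow_nonneg h l)
    rw [P_succ]; nlinarith

def Q (m l N : ℕ) (x : ℝ) : ℝ := ∏ a ∈ range N, ∏ b ∈ range N, (1 + x ^ (m ^ a * l ^ b))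

theorem lim {G : ℕ × ℕ → ℂ} {F : ℂ} (h : HasProd G F) (c : ℕ) :
    Tendsto (fun N => ∏ a ∈ range (N + c), ∏ b ∈ range N, G (a, b)) atTop (𝓝 F) := by
  simp only [← prod_product']
  refine h.comp (tendsto_atTop_finset_of_monotone (fun a b hab => product_subset_product
    (range_subset_range.2 (by omega)) (range_subset_range.2 hab)) fun i => ⟨i.1 + i.2 + 1, ?_⟩)
  simp only [mem_product, mem_range]; omega

theorem main {m l : ℕ} (hm : 3 ≤ m) (hl : 3 ≤ l) (h : m.Coprime l) (ho : Odd m) (σ : ℝ)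
    (hσ : |σ| = 1) (n0 : ℕ) (hd : ∀ n, n0 ≤ n → 0 ≤ σ * d m l n) : False := by
  choose! F hF1 hF2 using gen (m := m) (l := l) (by omega) (by omega) h
  let e : ℕ → ℝ := fun n => σ * Nat.casesOn n (f m l 0 : ℝ) fun n => d m l n
  have he : ∀ z : ℂ, ‖z‖ < 1 → HasSum (fun n => (e n : ℂ) * z ^ n) (σ * ((1 - z) * F z)) := by
    intro z hz
    rw [← hasSum_nat_add_iff' 1]
    have a1 := (hasSum_nat_add_iff' 1).2 (hF1 z hz)
    have a2 := (a1.sub ((hF1 z hz).mul_left z)).mul_left (σ : ℂ)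
    have b1 : (fun n => (e (n + 1) : ℂ) * z ^ (n + 1)) = fun i => (σ : ℂ) *
        ((f m l (i + 1) : ℂ) * z ^ (i + 1) - z * ((f m l i : ℂ) * z ^ i)) := by
      ext n; simp [e, d]; ring
    have b2 : (σ : ℂ) * ((1 - z) * F z) - ∑ i ∈ range 1, (e i : ℂ) * z ^ i =
        σ * (F z - ∑ i ∈ range 1, (f m l i : ℂ) * z ^ i - z * F z) := by simp [e]; ring
    rw [b1, b2]
    exact a2
  set C := ∑ n ∈ range (n0 + 1), 2 * |e n|
  have hC : 0 ≤ C := sum_nonneg fun _ _ => by positivity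
  have hb : ∀ (z : ℂ) (r : ℝ), ‖z‖ = r → r < 1 → ‖(1 - z) * F z‖ ≤ ‖(1 - r) * F r‖ + C := by
    intro z r hz hr
    have h0 : 0 ≤ r := hz ▸ norm_nonneg z
    have := bound e (n0 + 1) (fun n hn => by
      obtain ⟨k, rfl⟩ : ∃ k, n = k + 1 := ⟨n - 1, by omega⟩
      exact hd k (by omega)) z r hz hr.le _ _ (he z (hz ▸ hr))
      (he r (by rwa [Complex.norm_real, Real.norm_eq_abs, abs_of_nonneg h0]))
    rwa [norm_mul (σ : ℂ), norm_mul (σ : ℂ), Complex.norm_real, Real.norm_eq_abs, hσ, one_mul,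
      one_mul] at this
  obtain ⟨K, hK⟩ : ∃ K : ℕ, 4 * C < 2 ^ K := pow_unbounded_of_one_lt _ one_lt_two
  have e1 : ∀ᶠ r : ℝ in 𝓝 1, 4 * C < Q m l K (r ^ m) := by
    have : Continuous fun r : ℝ => Q m l K (r ^ m) := by unfold Q; fun_prop
    refine this.continuousAt.eventually_const_lt ?_
    refine hK.trans_le ?_
    simp only [Q, one_pow, one_add_one_eq_two, prod_const, card_range, ← pow_mul]
    exact pow_le_pow_right₀ one_le_two (Nat.le_mul_self K)
  have e2 : ∀ᶠ r : ℝ in 𝓝 1, 64 < ∑ i ∈ range (l ^ 4), r ^ i := by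
    have : Continuous fun r : ℝ => ∑ i ∈ range (l ^ 4), r ^ i := by fun_prop
    refine this.continuousAt.eventually_const_lt ?_
    have : 3 ^ 4 ≤ l ^ 4 := Nat.pow_le_pow_left hl 4
    simp only [one_pow, sum_const, card_range, nsmul_eq_mul, mul_one]
    exact_mod_cast (by omega)
  obtain ⟨r, ⟨⟨hr1, hr2⟩, r0⟩, r1⟩ := (((e1.and e2).and (lt_mem_nhds one_pos)).filter_mono
    nhdsWithin_le_nhds |>.and (self_mem_nhdsWithin (s := Set.Iio (1 : ℝ)))).exists
  replace r1 : r < 1 := r1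
  have hrm : r ^ m < 1 := pow_lt_one₀ r0.le r1 (by omega)
  have hQ : ∀ N, 0 < Q m l N (r ^ m) := fun N =>
    prod_pos fun _ _ => prod_pos fun _ _ => by positivity
  have hζ := Complex.isPrimitiveRoot_exp m (by omega)
  set ζ := Complex.exp (2 * Real.pi * Complex.I / m)
  have nz : ∀ k : ℕ, ‖ζ ^ k * r‖ = r := fun k => by
    rw [norm_mul, norm_pow, hζ.norm'_eq_one (by omega), one_pow, one_mul, Complex.norm_real,
      Real.norm_eq_abs, abs_of_pos r0]
  have split : ∀ k N : ℕ, ∏ a ∈ range (N + 1), ∏ b ∈ range N, (1 + (ζ ^ k * r) ^ (m ^ a * l ^ b)) =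
      (Q m l N (r ^ m) : ℝ) * ∏ b ∈ range N, (1 + (ζ ^ l ^ b) ^ k * (r ^ l ^ b : ℝ)) := by
    intro k N
    rw [prod_range_succ']
    congr 1
    · simp only [Q]; push_cast
      refine prod_congr rfl fun a _ => prod_congr rfl fun b _ => ?_
      rw [pow_succ', mul_assoc, pow_mul, mul_pow, ← pow_mul ζ, mul_comm k, pow_mul ζ, hζ.pow_eq_one,
        one_pow, one_mul]
    · refine prod_congr rfl fun b _ => ?_
      rw [pow_zero, one_mul, mul_pow, ← pow_mul, ← pow_mul, mul_comm k]; push_cast; rfl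
  have root : ∀ (μ : ℂ), IsPrimitiveRoot μ m → ∀ x : ℂ, ∏ k ∈ range m, (1 - μ ^ k * x) = 1 - x ^ m := by
    intro μ hμ x
    have := congrArg (Polynomial.eval 1) (X_pow_sub_C_eq_prod hμ (by omega) (rfl : x ^ m = _))
    simpa [Polynomial.eval_prod] using this.symm
  have tQ : Tendsto (fun N => Q m l N (r ^ m)) atTop (𝓝 ‖F (r ^ m : ℝ)‖) := by
    refine (lim (hF2 (r ^ m : ℝ) (by
      rwa [Complex.norm_real, Real.norm_eq_abs, abs_of_pos (by positivity)])) 0).norm.congr fun N => ?_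
    rw [← abs_of_pos (hQ N), ← Real.norm_eq_abs, ← Complex.norm_real, Q]
    push_cast; rfl
  set q := ‖F (r ^ m : ℝ)‖
  have tF : ∀ k : ℕ, Tendsto (fun N => ‖(1 - ζ ^ k * r) * ((Q m l N (r ^ m) : ℝ) *
      ∏ b ∈ range N, (1 + (ζ ^ l ^ b) ^ k * (r ^ l ^ b : ℝ)))‖) atTop
      (𝓝 ‖(1 - ζ ^ k * r) * F (ζ ^ k * r)‖) := fun k => by
    simp only [← split]
    exact ((lim (hF2 _ (by rw [nz]; exact r1)) 1).const_mul _).norm
  have t0 : ∀ N, ‖(1 - ζ ^ 0 * r) * ((Q m l N (r ^ m) : ℝ) *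
      ∏ b ∈ range N, (1 + (ζ ^ l ^ b) ^ 0 * (r ^ l ^ b : ℝ)))‖ =
      (1 - r) * P l N r * Q m l N (r ^ m) := fun N => by
    have := hQ N
    have := P_pos l N r0.le
    rw [← abs_of_nonneg (a := (1 - r) * P l N r * Q m l N (r ^ m)) (by have := sub_pos.2 r1; positivity),
      ← Real.norm_eq_abs, ← Complex.norm_real, P]
    congr 1; push_cast; simp only [pow_zero, one_mul]; ring
  have hT : ‖(1 - r) * F r‖ ≤ q / 4 := by
    have := tF 0
    simp only [t0] at this
    rw [pow_zero, one_mul] at this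
    refine le_of_tendsto_of_tendsto' this (tQ.div_const 4) fun N => ?_
    have a1 := P_add l N 4 r0.le r1.le
    have a2 := P_le (l := l) (by omega) N (pow_nonneg r0.le (l ^ 4)) (pow_le_one₀ r0.le r1.le)
    rw [← mul_neg_geom_sum] at a2
    have a3 := P_pos l N (pow_nonneg r0.le (l ^ 4))
    have a4 := sub_pos.2 r1
    have a5 : (1 - r) * P l N (r ^ l ^ 4) * 64 ≤ 1 := by nlinarith [mul_pos a4 a3]
    have a6 : (1 - r) * P l N r ≤ 1 / 4 := by nlinarith
    have := hQ N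
    nlinarith
  obtain ⟨j, rfl⟩ : ∃ j, m = j + 1 := ⟨m - 1, by omega⟩
  have hq : q ^ j ≤ 2 ^ j * ∏ k ∈ range j, ‖(1 - ζ ^ (k + 1) * r) * F (ζ ^ (k + 1) * r)‖ := by
    refine le_of_tendsto_of_tendsto' (tQ.pow j)
      ((tendsto_finsetProd _ fun k _ => tF (k + 1)).const_mul _) fun N => ?_
    have a1 : ∏ k ∈ range (j + 1), ‖(1 - ζ ^ k * r) * ((Q (j + 1) l N (r ^ (j + 1)) : ℝ) *
        ∏ b ∈ range N, (1 + (ζ ^ l ^ b) ^ k * (r ^ l ^ b : ℝ)))‖ =
        (1 - r ^ (j + 1)) * Q (j + 1) l N (r ^ (j + 1)) ^ (j + 1) * P l N (r ^ (j + 1)) := by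
      have := hQ N
      have := P_pos l N (pow_nonneg r0.le (j + 1))
      rw [← norm_prod, prod_mul_distrib, prod_mul_distrib, root ζ hζ, Finset.prod_comm, prod_const,
        card_range, ← abs_of_nonneg (a := (1 - r ^ (j + 1)) * _ * _)
          (by have := sub_pos.2 hrm; positivity), ← Real.norm_eq_abs, ← Complex.norm_real, P]
      congr 1; push_cast
      rw [mul_assoc]
      congr 2
      refine prod_congr rfl fun b _ => ?_
      have := root _ (hζ.pow_of_coprime (l ^ b) (h.symm.pow_left b)) (-(r : ℂ) ^ l ^ b)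
      rw [ho.neg_pow, ← pow_mul, mul_comm (l ^ b), pow_mul] at this
      simpa using this
    rw [prod_range_succ', t0] at a1
    set X := ∏ k ∈ range j, ‖(1 - ζ ^ (k + 1) * r) * ((Q (j + 1) l N (r ^ (j + 1)) : ℝ) *
        ∏ b ∈ range N, (1 + (ζ ^ l ^ b) ^ (k + 1) * (r ^ l ^ b : ℝ)))‖
    have hX : 0 ≤ X := prod_nonneg fun _ _ => norm_nonneg _
    have a2 : P l N r ≤ 2 ^ j * P l N (r ^ (j + 1)) := by
      refine (P_add l N j r0.le r1.le).trans (mul_le_mul_of_nonneg_left ?_ (by positivity))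
      refine prod_le_prod (fun _ _ => by positivity) fun b _ => ?_
      have : r ^ l ^ j ≤ r ^ (j + 1) :=
        pow_le_pow_of_le_one r0.le r1.le (Nat.lt_pow_self (show 1 < l by omega))
      gcongr
    have a3 : 1 - r ≤ 1 - r ^ (j + 1) := by
      linarith [pow_le_of_le_one r0.le r1.le (n := j + 1) (by omega)]
    have a4 := sub_pos.2 hrm
    have a5 := P_pos l N (pow_nonneg r0.le (j + 1))
    have a6 := hQ N
    refine le_of_mul_le_mul_right ?_ (mul_pos (mul_pos a4 a5) a6)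
    have a7 : (1 - r) * P l N r ≤ (1 - r ^ (j + 1)) * (2 ^ j * P l N (r ^ (j + 1))) :=
      mul_le_mul a3 a2 (P_pos l N r0.le).le a4.le
    have a8 := mul_le_mul_of_nonneg_left (mul_le_mul_of_nonneg_right a7 a6.le) hX
    rw [a1] at a8
    calc _ = _ := by ring
      _ ≤ _ := a8
      _ = _ := by ring
  have hq2 : q ^ j ≤ (2 * (q / 4 + C)) ^ j := by
    refine hq.trans ?_
    rw [mul_pow]
    gcongr
    refine (prod_le_prod (g := fun _ => q / 4 + C) (fun _ _ => norm_nonneg _) fun k _ => ?_).trans_eq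
      (by rw [prod_const, card_range])
    exact (hb _ r (nz _) r1).trans (by linarith)
  have hq3 := (pow_le_pow_iff_left₀ (norm_nonneg _) (by positivity) (by omega)).1 hq2
  have hq4 : Q (j + 1) l K (r ^ (j + 1)) ≤ q := by
    refine ge_of_tendsto tQ (eventually_atTop.2 ⟨K, fun N hN => ?_⟩)
    simp only [Q, ← prod_product']
    exact prod_le_prod_of_subset_of_one_le (product_subset_product (range_subset_range.2 hN)
      (range_subset_range.2 hN)) (fun _ _ => by positivity) fun _ _ _ => by simp; positivity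
  linarith

theorem result (p q : ℕ) (hp : 2 < p) (hpq : p < q) (h : Nat.gcd p q = 1) :
    {n : ℕ | 1 ≤ n ∧ 0 < d p q n}.Infinite ∧ {n : ℕ | 1 ≤ n ∧ d p q n < 0}.Infinite := by
  have key : ∀ σ : ℝ, |σ| = 1 → ∀ n0, ¬ ∀ n, n0 ≤ n → 0 ≤ σ * d p q n := by
    intro σ hσ n0 hd
    rcases Nat.even_or_odd p with hp' | hp'
    · have hA : A q p = A p q := by
        ext a; constructor <;> rintro ⟨x, y, e⟩ <;> exact ⟨y, x, by rw [e, mul_comm]⟩
      refine main (m := q) (l := p) (by omega) hp (Nat.Coprime.symm h)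
        (Nat.coprime_two_left.1 (Nat.Coprime.coprime_dvd_left hp'.two_dvd h)) σ hσ n0 ?_
      simpa only [d, f, hA] using hd
    · exact main (m := p) (l := q) hp (by omega) h hp' σ hσ n0 hd
  constructor <;> intro hf <;> obtain ⟨b, hb⟩ := hf.bddAbove
  · refine key (-1) (by simp) (b + 1) fun n hn => ?_
    have : ¬ 0 < d p q n := fun h => by have := hb ⟨by omega, h⟩; omega
    have : (d p q n : ℝ) ≤ 0 := by exact_mod_cast not_lt.1 this
    linarith
  · refine key 1 (by simp) (b + 1) fun n hn => ?_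
    have : ¬ d p q n < 0 := fun h => by have := hb ⟨by omega, h⟩; omega
    have : (0 : ℝ) ≤ d p q n := by exact_mod_cast not_lt.1 this
    linarith

end Pool.Agent.Results.MP_b44203_nt.SignChanges
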